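import Mathlib

/-!
# Dimension free Beck-Fiala: definitions for the assembly

`S j` (`j : κ`) are the sets, `ι` is the ground set. Real vectors `y : κ → ℝ` are dual vectors;
`fv S y v` is the functional of the element `v`.
-/

namespace Pool.Agent.Helper28.NF

open Finset MeasureTheory
open scoped Classical

noncomputable section

variable {ι κ : Type} [Fintype ι] [Fintype κ]

/-- the truncated square -/
def Ph (x : ℝ) : ℝ := x ^ 2 / (1 + x ^ 2)

omit [Fintype ι] in
/-- the functional of the element `v` -/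
def fv (S : κ → Finset ι) (y : κ → ℝ) (v : ι) : ℝ := ∑ j, if v ∈ S j then y j else 0

/-- potential; `L` are the stiffnesses of the sets, `b` the weights of the elements (negative for
sources) -/
def Pot (S : κ → Finset ι) (L : κ → ℝ) (b : ι → ℝ) (y : κ → ℝ) : ℝ :=
  2 * ∑ j, Real.log (1 + L j * y j ^ 2) + ∑ v, b v * Ph (fv S y v)

/-- partition function -/
def ZZ (S : κ → Finset ι) (L : κ → ℝ) (b : ι → ℝ) : ℝ := ∫ y : κ → ℝ, Real.exp (-Pot S L b y)

/-- normalised partition function -/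
def Zn (S : κ → Finset ι) (L : κ → ℝ) (b : ι → ℝ) : ℝ := ZZ S L b / ZZ S L (fun _ => 0)

/-- the element `u` is happy -/
def Happy (S : κ → Finset ι) (L : κ → ℝ) (b : ι → ℝ) (u : ι) : Prop :=
  ∫ y : κ → ℝ, (if 1 / 4 < |fv S y u| then Real.exp (-Pot S L b y) else 0) ≤ 1 / 4 * ZZ S L b

omit [Fintype κ] in
/-- ridge plus weighted Gram matrix -/
def GM (S : κ → Finset ι) (R : κ → ℝ) (w : ι → ℝ) : Matrix κ κ ℝ :=
  fun i j => (if i = j then R i else 0) + ∑ v, if v ∈ S i ∧ v ∈ S j then w v else 0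

/-- normalised log determinant -/
def LD (S : κ → Finset ι) (R : κ → ℝ) (w : ι → ℝ) : ℝ :=
  Real.log (GM S R w).det - ∑ j, Real.log (R j)

/-- leverage of `u` -/
def lev (S : κ → Finset ι) (R : κ → ℝ) (w : ι → ℝ) (u : ι) : ℝ :=
  ∑ i, ∑ j, if u ∈ S i ∧ u ∈ S j then (GM S R w)⁻¹ i j else 0

/-! ## ranks -/

omit [Fintype ι] [Fintype κ] in
/-- number of elements of `S j` of rank at least `i` -/
def nn (S : κ → Finset ι) (k : ι → ℕ) (i : ℕ) (j : κ) : ℕ := #((S j).filter (fun v => i ≤ k v))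

/-- the profile of stiffness and ridge -/
def prof (m x : ℝ) : ℝ := if x ≤ m then 1 else (m / x) ^ 8

omit [Fintype ι] [Fintype κ] in
/-- stiffness of the sets at step `i` -/
def LL (S : κ → Finset ι) (t : ℕ) (m : ℝ) (k : ι → ℕ) (i : ℕ) (j : κ) : ℝ :=
  6400 * t * prof m (nn S k i j)

omit [Fintype ι] [Fintype κ] in
/-- ridges at step `i` -/
def RR (S : κ → Finset ι) (t : ℕ) (B m : ℝ) (k : ι → ℕ) (i : ℕ) (j : κ) : ℝ :=
  6400 * B * t * prof m (nn S k i j)

omit [Fintype ι] in
/-- weights of the Cauchy potential at step `i`: reserve `1/4 ^ (k v - i)`, sources `-1/160000` -/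
def bb (k : ι → ℕ) (i : ℕ) (v : ι) : ℝ :=
  if i ≤ k v then (1 / 4) ^ (k v - i) else if k v + 1 = i then -(1 / 160000) else 0

omit [Fintype ι] in
/-- weights of the log determinant at step `i` -/
def ww (H : ℕ) (k : ι → ℕ) (i : ℕ) (v : ι) : ℝ :=
  if i ≤ k v then (1 / 4) ^ (k v - i - H) else 0

end

end Pool.Agent.Helper28.NF
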