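import Pool.Agent.Helper28.NF.Defs
import Pool.Agent.Helper38.ZS.Defs

/-!
# Dimension free Beck-Fiala: statements of the assembly modules
-/

namespace Pool.Agent.Helper28.NF

open Finset MeasureTheory
open scoped Classical

noncomputable section

/-- N1. scalar inequalities -/
def ST_PHI : Prop :=
  (∀ a b : ℝ, (Ph (b + a) + Ph (b - a)) / 2 - Ph b ≤ Ph a) ∧
  (∀ a b : ℝ, |b| ≤ 1 / 4 → 67 / 100 * Ph a ≤ (Ph (b + a) + Ph (b - a)) / 2 - Ph b) ∧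
  (∀ a b : ℝ, -(3 / 5) * Ph a ≤ (Ph (b + a) + Ph (b - a)) / 2 - Ph b) ∧
  (∀ L a b : ℝ, 0 ≤ L → (Real.log (1 + L * (b + a) ^ 2) + Real.log (1 + L * (b - a) ^ 2)) / 2
      - Real.log (1 + L * b ^ 2) ≤ Real.log (1 + L * a ^ 2))

/-- N2. integrability of the weight and basic facts of the integral -/
def ST_INT : Prop :=
  ∀ (ι κ : Type) [Fintype ι] [Fintype κ] (S : κ → Finset ι) (L : κ → ℝ) (b : ι → ℝ),
    (∀ j, 0 < L j) →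
    Integrable (fun y : κ → ℝ => Real.exp (-Pot S L b y)) ∧ 0 < ZZ S L b ∧
    ∀ u : ι, Integrable (fun y : κ → ℝ => if 1 / 4 < |fv S y u| then Real.exp (-Pot S L b y) else 0)

/-- N3. domination of the truncated squares -/
def ST_DOM : Prop :=
  ∀ (ι κ : Type) [Fintype ι] [Fintype κ] (S : κ → Finset ι) (L : κ → ℝ) (b : ι → ℝ),
    (∀ j, 0 < L j) → (∀ u, b u < 0 → Happy S L b u) →
    ∀ y : κ → ℝ, 7 / 20 * ∑ u, max (-b u) 0 * Ph (fv S y u)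
      ≤ ∑ v, max (b v) 0 * Ph (fv S y v) + 2 * ∑ j, Real.log (1 + L j * y j ^ 2)

/-- N4. integration over scales -/
def ST_SCALE : Prop :=
  ∀ (ι κ : Type) [Fintype ι] [Fintype κ] (S : κ → Finset ι) (L : κ → ℝ) (p q : ι → ℝ),
    (∀ j, 0 < L j) → (∀ v, 0 ≤ p v) → (∀ v, 0 ≤ q v) →
    (∀ y : κ → ℝ, ∑ u, p u * Ph (fv S y u)
      ≤ ∑ v, q v * Ph (fv S y v) + 2 * ∑ j, Real.log (1 + L j * y j ^ 2)) →
    ∀ y : κ → ℝ, ∑ u, p u * |fv S y u|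
      ≤ ∑ v, q v * |fv S y v| + 4 * ∑ j, Real.sqrt (L j) * |y j|

/-- N5. changes of the partition function -/
def ST_ZCOST : Prop :=
  ∀ (ι κ : Type) [Fintype ι] [Fintype κ] (S : κ → Finset ι) (L : κ → ℝ) (b : ι → ℝ),
    (∀ j, 0 < L j) →
    (∀ b' : ι → ℝ, (∀ v, b v ≤ b' v) → ZZ S L b' ≤ ZZ S L b ∧
      ZZ S L b ≤ Real.exp (∑ v, (b' v - b v)) * ZZ S L b') ∧
    (∀ u, b u ≤ 0 → ¬ Happy S L b u →
      ZZ S L (Function.update b u 1) ≤ Real.exp (-(1 / 70)) * ZZ S L b) ∧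
    (∀ L' : κ → ℝ, (∀ j, 0 < L' j) → (∀ j, L' j ≤ L j) →
      Zn S L' b ≤ Real.exp (3 / 2 * ∑ j, Real.log (L j / L' j)) * Zn S L b)

/-- N6. lower bound of the partition function -/
def ST_ZLOW : Prop :=
  ∀ (ι κ : Type) [Fintype ι] [Fintype κ] (S : κ → Finset ι) (L : κ → ℝ) (b : ι → ℝ)
    (G : Finset κ) (δ : κ → ℝ), (∀ j, 0 < L j) → (∀ j, 0 < δ j) →
    -(∑ v, max (b v) 0 * ∑ j, (if v ∈ S j then (if j ∈ G then δ j ^ 2 else 1 / L j) else 0))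
      - ∑ j ∈ G, (2 + max 0 (-Real.log (Real.sqrt (L j) * δ j))) ≤ Real.log (Zn S L b)

/-- N7. log determinants -/
def ST_LD : Prop :=
  ∀ (ι κ : Type) [Fintype ι] [Fintype κ] (S : κ → Finset ι) (R : κ → ℝ) (w : ι → ℝ),
    (∀ j, 0 < R j) → (∀ v, 0 ≤ w v) →
    (∀ u, 0 ≤ lev S R w u) ∧
    (∀ u c, 0 ≤ c → LD S R (Function.update w u (w u + c)) = LD S R w
      + Real.log (1 + c * lev S R w u)) ∧
    (∀ u c, 0 < c → c ≤ w u → LD S R w ≤ LD S R (Function.update w u c) + Real.log (w u / c)) ∧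
    (∀ R' : κ → ℝ, (∀ j, 0 < R' j) → (∀ j, R' j ≤ R j) → LD S R w ≤ LD S R' w) ∧
    (LD S R w ≤ ∑ j, Real.log (1 + (∑ v ∈ S j, w v) / R j)) ∧
    (∀ (w' : ι → ℝ) (c : ℝ) (u : ι), 0 < c → (∀ v, c * w v ≤ w' v) → c ≤ 1 →
      lev S R w' u ≤ lev S R w u / c)

/-- N8. one step of the minimisation: lower bound of one level -/
def ST_LEVLOW : Prop :=
  ∀ B : ℝ, 1 ≤ B → ∃ M1 : ℕ, ∀ M0 : ℕ, M1 ≤ M0 →
    ∀ (ι κ : Type) [Fintype ι] [Fintype κ] (S : κ → Finset ι) (t H : ℕ) (k : ι → ℕ) (i : ℕ),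
      1 ≤ t → (∀ v, #(univ.filter (fun j => v ∈ S j)) ≤ t) → 1 ≤ i →
      -(1 / 1600) * (#(univ.filter (fun v => i ≤ k v)) : ℝ)
        ≤ Real.log (Zn S (LL S t (M0 * t ^ 2) k i) (bb k i))
          - B * LD S (RR S t B (M0 * t ^ 2) k i) (ww H k i)

/-- N9. the ranks -/
def ST_RANK : Prop :=
  ∀ (H : ℕ) (B : ℝ), 1 ≤ B → 50 * B ≤ 400 ^ H → ∃ M0 : ℕ, 2 ≤ M0 ∧
    ∀ (ι κ : Type) [Fintype ι] [Fintype κ] (S : κ → Finset ι) (t g : ℕ),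
      1 ≤ t → (∀ v, #(univ.filter (fun j => v ∈ S j)) ≤ t) →
      32 * t * (M0 * t ^ 2) ^ 2 ≤ 400 ^ g →
      ∃ k : ι → ℕ, ∀ (i : ℕ) (u : ι), k u + 1 = i →
        Happy S (LL S t (M0 * t ^ 2) k i) (bb k i) u ∧
        lev S (RR S t B (M0 * t ^ 2) k i) (ww H k i) u ≤ 8 / 1000 / B ∧
        ∀ j, u ∈ S j → (M0 * t ^ 2) ^ 2 * nn S k (i + g) j ≤ nn S k i j

/-- N10. zonotope signing with means (theorem Y') -/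
def ST_SIGNZ : Prop :=
  ∀ β : ℝ, 0 < β → β ≤ 1 → ∃ η L : ℝ, 0 < η ∧ η ≤ 1 ∧ 1 ≤ L ∧
    ∀ (I : Type) [Fintype I] (P : I → I → ℝ) (X : Finset I) (z : I → ℝ),
      Pool.Agent.Helper38.ZS.IsPr P → (∀ i ∈ X, P i i ≤ η) → (∀ i, |z i| ≤ 1) →
      ∃ ξ : I → ℝ, (∀ i, ξ i = 1 ∨ ξ i = -1) ∧
        ∀ f : I → ℝ, Pool.Agent.Helper38.ZS.ap P f = f →
          ∑ i ∈ X, (ξ i - z i) * f i ≤ β * ∑ i ∈ X, |f i| + L * ∑ i ∈ Xᶜ, |f i|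

/-- N11. one step, generic form -/
def ST_STEP : Prop :=
  ∀ β : ℝ, 0 < β → β ≤ 1 → ∃ η L : ℝ, 0 < η ∧ η ≤ 1 ∧ 1 ≤ L ∧
    ∀ (ι κ : Type) [Fintype ι] [Fintype κ] (S : κ → Finset ι) (E V : Finset ι) (c τ z : ι → ℝ)
      (R σ : κ → ℝ), Disjoint E V → (∀ j, 0 < R j) → (∀ v, 0 ≤ c v) → (∀ v, 0 ≤ τ v) →
      (∀ j, 0 ≤ σ j) → (∀ v, |z v| ≤ 1) →
      (∀ u ∈ E, lev S R (fun v => if v ∈ E then 1 else if v ∈ V then c v ^ 2 else 0) u ≤ η) →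
      (∀ y : κ → ℝ, ∑ u ∈ E, |fv S y u| ≤ ∑ v ∈ V, τ v * |fv S y v| + ∑ j, σ j * |y j|) →
      ∃ (ξ δ : ι → ℝ) (ρ : κ → ℝ), (∀ v, ξ v = 1 ∨ ξ v = -1) ∧
        (∀ v, |δ v| ≤ β * τ v + L * c v) ∧
        (∀ j, |ρ j| ≤ β * σ j + L * Real.sqrt (R j)) ∧
        ∀ j, ∑ v ∈ S j ∩ E, (ξ v - z v) = ∑ v ∈ S j ∩ V, δ v + ρ j

/-- N12. the colouring, from the steps -/
def ST_ITER : Prop :=
  ∀ (ι κ : Type) [Fintype ι] [Fintype κ] (S : κ → Finset ι) (k : ι → ℕ) (τ : ℕ → ι → ℝ)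
    (σ : ℕ → κ → ℝ), (∀ i v, 0 ≤ τ i v) → (∀ i j, 0 ≤ σ i j) →
    (∀ v, ∑ i ∈ Icc 1 (k v), τ i v ≤ 1) →
    (∀ i, 1 ≤ i → ∀ z : ι → ℝ, (∀ v, |z v| ≤ 1) →
      ∃ (ξ δ : ι → ℝ) (ρ : κ → ℝ), (∀ v, ξ v = 1 ∨ ξ v = -1) ∧ (∀ v, |δ v| ≤ τ i v) ∧
        (∀ j, |ρ j| ≤ σ i j) ∧
        ∀ j, ∑ v ∈ (S j).filter (fun v => k v + 1 = i), (ξ v - z v)
          = ∑ v ∈ (S j).filter (fun v => i ≤ k v), δ v + ρ j) →
    ∃ χ : ι → ℤ, (∀ v, χ v = 1 ∨ χ v = -1) ∧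
      ∀ j, |((∑ v ∈ S j, χ v : ℤ) : ℝ)| ≤ ∑ i ∈ Icc 1 (univ.sup k + 1),
        (if (S j).filter (fun v => k v + 1 = i) = ∅
          then min (σ i j) (∑ v ∈ (S j).filter (fun v => i ≤ k v), τ i v) else σ i j)

/-- N13. sum of the errors of one set -/
def ST_ERR : Prop :=
  ∀ (H M0 : ℕ), 2 ≤ M0 → ∃ C : ℝ, ∀ (ι : Type) [Fintype ι] (T : Finset ι) (k : ι → ℕ) (t g N : ℕ)
    (s : ℝ), 1 ≤ t → 1 ≤ s →
    (∀ (i : ℕ), (∃ u ∈ T, k u + 1 = i) →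
      (M0 * t ^ 2) ^ 2 * #(T.filter (fun v => i + g ≤ k v)) ≤ #(T.filter (fun v => i ≤ k v))) →
    ∑ i ∈ Icc 1 N, (if T.filter (fun v => k v + 1 = i) = ∅
        then min (s * Real.sqrt (prof (M0 * t ^ 2) (#(T.filter (fun v => i ≤ k v)))))
          (∑ v ∈ T.filter (fun v => i ≤ k v), 2 ^ H * (1 / 2 : ℝ) ^ (k v - i))
        else s * Real.sqrt (prof (M0 * t ^ 2) (#(T.filter (fun v => i ≤ k v)))))
      ≤ C * s * (g + 1 + Real.log t)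

/-- N14. dimension free Beck-Fiala up to a logarithm -/
def ST_MAIN : Prop :=
  ∃ C : ℝ, ∀ (n m t : ℕ) (S : Fin m → Finset (Fin n)), 1 ≤ t →
    (∀ v, #(univ.filter (fun j => v ∈ S j)) ≤ t) →
    ∃ χ : Fin n → ℤ, (∀ v, χ v = 1 ∨ χ v = -1) ∧
      ∀ j, |((∑ v ∈ S j, χ v : ℤ) : ℝ)| ≤ C * Real.sqrt t * (1 + Real.log t)

end

end Pool.Agent.Helper28.NF
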